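import Pool.Agent.Q4.SPC.Stm

open Matrix Q4.GLC Q4.SPC

namespace Pool.Agent.Q214.SPC

variable {R : Type} [CommRing R] {n : ℕ}

/-- `w` is obtained from `v` by elementary symplectic matrices which fix `e_i`, `f_i`, `i < k` -/
def Reach (k : Fin n) (v w : Fin n ⊕ Fin n → R) : Prop :=
  ∃ z ∈ Subgroup.closure {x : Sp n R | IsEl 1 x}, FixLt k.1 z ∧ z.1 *ᵥ v = w

theorem Reach.refl (k : Fin n) (v : Fin n ⊕ Fin n → R) : Reach k v v := by
  refine ⟨1, Subgroup.one_mem _, fun i _ => ⟨?_, ?_⟩, ?_⟩
  · exact one_mulVec _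
  · exact one_mulVec _
  · exact one_mulVec _

theorem Reach.trans {k : Fin n} {u v w : Fin n ⊕ Fin n → R} (h1 : Reach k u v)
    (h2 : Reach k v w) : Reach k u w := by
  obtain ⟨z1, m1, f1, e1⟩ := h1
  obtain ⟨z2, m2, f2, e2⟩ := h2
  refine ⟨z2 * z1, Subgroup.mul_mem _ m2 m1, fun i hi => ⟨?_, ?_⟩, ?_⟩
  · change (z2.1 * z1.1) *ᵥ _ = _
    rw [← mulVec_mulVec, (f1 i hi).1, (f2 i hi).1]
  · change (z2.1 * z1.1) *ᵥ _ = _
    rw [← mulVec_mulVec, (f1 i hi).2, (f2 i hi).2]
  · change (z2.1 * z1.1) *ᵥ _ = _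
    rw [← mulVec_mulVec, e1, e2]

theorem single_inl (i : Fin n) :
    (Pi.single (Sum.inl i) 1 : Fin n ⊕ Fin n → R) = Sum.elim (Pi.single i 1) 0 := by
  funext j
  rcases j with j | j
  · by_cases h : j = i
    · subst h; simp
    · simp [h]
  · simp

theorem single_inr (i : Fin n) :
    (Pi.single (Sum.inr i) 1 : Fin n ⊕ Fin n → R) = Sum.elim (0 : Fin n → R) (Pi.single i 1) := by
  funext j
  rcases j with j | j
  · simp
  · by_cases h : j = i
    · subst h; simp
    · simp [h]

/-- the symmetric matrix with `k`-th row `w` -/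
def rowS (k : Fin n) (w : Fin n → R) : Matrix (Fin n) (Fin n) R :=
  Matrix.of fun i j => if i = k then w j else if j = k then w i else 0

theorem rowS_symm (k : Fin n) (w : Fin n → R) : (rowS k w)ᵀ = rowS k w := by
  ext i j
  simp only [transpose_apply, rowS, of_apply]
  by_cases hi : i = k
  · by_cases hj : j = k
    · rw [hi, hj]
    · rw [if_neg hj, if_pos hi, if_pos hi]
  · by_cases hj : j = k
    · rw [if_pos hj, if_neg hi, if_pos hj]
    · rw [if_neg hj, if_neg hi, if_neg hi, if_neg hj]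

theorem rowS_mulVec (k : Fin n) (w y : Fin n → R) :
    rowS k w *ᵥ y = fun i => if i = k then w ⬝ᵥ y else w i * y k := by
  funext i
  by_cases hi : i = k
  · subst hi
    simp [rowS, mulVec, dotProduct]
  · rw [if_neg hi]
    simp only [mulVec, dotProduct, rowS, of_apply, if_neg hi]
    rw [Finset.sum_eq_single k]
    · rw [if_pos rfl]
    · intro b _ hb
      rw [if_neg hb, zero_mul]
    · simp

theorem reach_up (k : Fin n) (w : Fin n → R) (hw : ∀ i : Fin n, i.1 < k.1 → w i = 0)
    (x y : Fin n → R) :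
    Reach k (Sum.elim x y)
      (Sum.elim (x + fun i => if i = k then w ⬝ᵥ y else w i * y k) y) := by
  refine ⟨up (rowS k w) (rowS_symm k w),
    Subgroup.subset_closure (isEl_up _ _ (fun _ _ => one_dvd _)), fun i hi => ⟨?_, ?_⟩, ?_⟩
  · rw [single_inl, up_mulVec, mulVec_zero, add_zero]
  · have hik : k ≠ i := fun h => by rw [h] at hi; exact lt_irrefl _ hi
    have e : rowS k w *ᵥ (Pi.single i 1 : Fin n → R) = 0 := by
      rw [rowS_mulVec]
      funext j
      by_cases hj : j = k
      · rw [if_pos hj, dotProduct_single, hw i hi, zero_mul]; rfl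
      · rw [if_neg hj, Pi.single_eq_of_ne hik, mul_zero]; rfl
    rw [single_inr, up_mulVec, e, add_zero]
  · rw [up_mulVec, rowS_mulVec]

theorem reach_lo (k : Fin n) (w : Fin n → R) (hw : ∀ i : Fin n, i.1 < k.1 → w i = 0)
    (x y : Fin n → R) :
    Reach k (Sum.elim x y)
      (Sum.elim x (y + fun i => if i = k then w ⬝ᵥ x else w i * x k)) := by
  refine ⟨lo (rowS k w) (rowS_symm k w),
    Subgroup.subset_closure (isEl_lo _ _ (fun _ _ => one_dvd _)), fun i hi => ⟨?_, ?_⟩, ?_⟩
  · have hik : k ≠ i := fun h => by rw [h] at hi; exact lt_irrefl _ hi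
    have e : rowS k w *ᵥ (Pi.single i 1 : Fin n → R) = 0 := by
      rw [rowS_mulVec]
      funext j
      by_cases hj : j = k
      · rw [if_pos hj, dotProduct_single, hw i hi, zero_mul]; rfl
      · rw [if_neg hj, Pi.single_eq_of_ne hik, mul_zero]; rfl
    rw [single_inl, lo_mulVec, e, add_zero]
  · rw [single_inr, lo_mulVec, mulVec_zero, add_zero]
  · rw [lo_mulVec, rowS_mulVec]

theorem reach_lvt (k i j : Fin n) (h : i ≠ j) (hi : k ≤ i) (hj : k ≤ j) (b : R)
    (x y : Fin n → R) :
    Reach k (Sum.elim x y)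
      (Sum.elim (x + Pi.single i (b * x j)) (y + Pi.single j (-(b * y i)))) := by
  refine ⟨lvt i j h b, Subgroup.subset_closure (isEl_lvt _ _ _ _ (one_dvd _)),
    fun l hl => ⟨?_, ?_⟩, lvt_mulVec i j h b x y⟩
  · have hlj : j ≠ l := fun e => by
      rw [e] at hj; exact absurd hl (not_lt.mpr hj)
    rw [single_inl, lvt_mulVec, Pi.single_eq_of_ne hlj]
    simp
  · have hli : i ≠ l := fun e => by
      rw [e] at hi; exact absurd hl (not_lt.mpr hi)
    rw [single_inr, lvt_mulVec, Pi.single_eq_of_ne hli]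
    simp

theorem reach_A (k : Fin n) (a x y : Fin n → R) (s : Finset (Fin n)) :
    (∀ i ∈ s, k < i) → Reach k (Sum.elim x y)
      (Sum.elim (x + Pi.single k (∑ i ∈ s, a i * x i))
        (y + fun i => if i ∈ s then -(a i * y k) else 0)) := by
  classical
  induction s using Finset.induction_on with
  | empty =>
    intro _
    have e1 : x + Pi.single k (∑ i ∈ (∅ : Finset (Fin n)), a i * x i) = x := by simp
    have e2 : (y + fun i => if i ∈ (∅ : Finset (Fin n)) then -(a i * y k) else 0) = y := by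
      funext i; simp
    rw [e1, e2]
    exact Reach.refl _ _
  | insert i0 s hi0 ih =>
    intro hs
    have h0 : k < i0 := hs i0 (Finset.mem_insert_self _ _)
    have hks : k ∉ s := fun h => lt_irrefl _ (hs k (Finset.mem_insert_of_mem h))
    refine (ih fun i hi => hs i (Finset.mem_insert_of_mem hi)).trans ?_
    have key := reach_lvt k k i0 h0.ne le_rfl h0.le (a i0)
      (x + Pi.single k (∑ i ∈ s, a i * x i))
      (y + fun i => if i ∈ s then -(a i * y k) else 0)
    have e1 : (x + Pi.single k (∑ i ∈ s, a i * x i)) +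
        Pi.single k (a i0 * (x + Pi.single k (∑ i ∈ s, a i * x i) : Fin n → R) i0) =
        x + Pi.single k (∑ i ∈ insert i0 s, a i * x i) := by
      rw [Finset.sum_insert hi0, Pi.add_apply, Pi.single_eq_of_ne h0.ne', add_zero, add_assoc,
        ← Pi.single_add, add_comm (∑ i ∈ s, a i * x i)]
    have e2 : (y + fun i => if i ∈ s then -(a i * y k) else 0) +
        Pi.single i0 (-(a i0 * (y + fun i => if i ∈ s then -(a i * y k) else 0 : Fin n → R) k)) =
        y + fun i => if i ∈ insert i0 s then -(a i * y k) else 0 := by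
      funext l
      simp only [Pi.add_apply, if_neg hks, add_zero]
      by_cases hl : l = i0
      · subst hl
        rw [if_neg hi0, Pi.single_eq_same, if_pos (Finset.mem_insert_self _ _), add_zero]
      · rw [Pi.single_eq_of_ne hl, add_zero]
        by_cases hls : l ∈ s
        · rw [if_pos hls, if_pos (Finset.mem_insert_of_mem hls)]
        · rw [if_neg hls, if_neg]
          simp [hl, hls]
    rw [e1, e2] at key
    exact key

theorem reach_B (k : Fin n) (a x y : Fin n → R) (s : Finset (Fin n)) :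
    (∀ i ∈ s, k < i) → Reach k (Sum.elim x y)
      (Sum.elim (x + fun i => if i ∈ s then a i * x k else 0)
        (y + Pi.single k (-(∑ i ∈ s, a i * y i)))) := by
  classical
  induction s using Finset.induction_on with
  | empty =>
    intro _
    have e1 : y + Pi.single k (-(∑ i ∈ (∅ : Finset (Fin n)), a i * y i)) = y := by simp
    have e2 : (x + fun i => if i ∈ (∅ : Finset (Fin n)) then a i * x k else 0) = x := by
      funext i; simp
    rw [e1, e2]
    exact Reach.refl _ _
  | insert i0 s hi0 ih =>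
    intro hs
    have h0 : k < i0 := hs i0 (Finset.mem_insert_self _ _)
    have hks : k ∉ s := fun h => lt_irrefl _ (hs k (Finset.mem_insert_of_mem h))
    refine (ih fun i hi => hs i (Finset.mem_insert_of_mem hi)).trans ?_
    have key := reach_lvt k i0 k h0.ne' h0.le le_rfl (a i0)
      (x + fun i => if i ∈ s then a i * x k else 0)
      (y + Pi.single k (-(∑ i ∈ s, a i * y i)))
    have e1 : (y + Pi.single k (-(∑ i ∈ s, a i * y i))) +
        Pi.single k (-(a i0 * (y + Pi.single k (-(∑ i ∈ s, a i * y i)) : Fin n → R) i0)) =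
        y + Pi.single k (-(∑ i ∈ insert i0 s, a i * y i)) := by
      rw [Finset.sum_insert hi0, Pi.add_apply, Pi.single_eq_of_ne h0.ne', add_zero, add_assoc,
        ← Pi.single_add, neg_add, add_comm (-(∑ i ∈ s, a i * y i))]
    have e2 : (x + fun i => if i ∈ s then a i * x k else 0) +
        Pi.single i0 (a i0 * (x + fun i => if i ∈ s then a i * x k else 0 : Fin n → R) k) =
        x + fun i => if i ∈ insert i0 s then a i * x k else 0 := by
      funext l
      simp only [Pi.add_apply, if_neg hks, add_zero]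
      by_cases hl : l = i0
      · subst hl
        rw [if_neg hi0, Pi.single_eq_same, if_pos (Finset.mem_insert_self _ _), add_zero]
      · rw [Pi.single_eq_of_ne hl, add_zero]
        by_cases hls : l ∈ s
        · rw [if_pos hls, if_pos (Finset.mem_insert_of_mem hls)]
        · rw [if_neg hls, if_neg]
          simp [hl, hls]
    rw [e1, e2] at key
    exact key

theorem sum_split (k : Fin n) (f : Fin n → R) (hf : ∀ i : Fin n, i.1 < k.1 → f i = 0) :
    ∑ i, f i = f k + ∑ i ∈ Finset.Ioi k, f i := by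
  rw [← Finset.sum_insert (f := f) (Finset.notMem_Ioi_self (b := k)), Finset.Ioi_insert]
  symm
  apply Finset.sum_subset (Finset.subset_univ _)
  intro i _ hi
  apply hf
  simpa using hi

theorem dot_single (k : Fin n) (w : Fin n → R) (c : R) : w ⬝ᵥ Pi.single k c = w k * c := by
  rw [dotProduct_single]

/-- (3): `u e_k` is brought to `e_k` -/
theorem reach_unit (k : Fin n) (u u' : R) (h : u' * u = 1) :
    Reach k (Sum.elim (Pi.single k u) 0) (Sum.elim (Pi.single k 1) 0) := by
  have hs : ∀ c : R, ∀ i : Fin n, i.1 < k.1 → (Pi.single k c : Fin n → R) i = 0 := by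
    intro c i hi
    have hik : i ≠ k := fun h => by rw [h] at hi; exact lt_irrefl _ hi
    rw [Pi.single_eq_of_ne hik]
  have s1 := reach_lo k (Pi.single k ((1 - u) * u')) (hs _) (Pi.single k u) 0
  have e1 : ((0 : Fin n → R) + fun i => if i = k then
      (Pi.single k ((1 - u) * u') : Fin n → R) ⬝ᵥ Pi.single k u
      else (Pi.single k ((1 - u) * u') : Fin n → R) i * (Pi.single k u : Fin n → R) k) =
      Pi.single k (1 - u) := by
    funext i
    by_cases hi : i = k
    · subst hi
      simp only [Pi.add_apply, Pi.zero_apply, zero_add, if_true, dot_single, Pi.single_eq_same]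
      rw [mul_assoc, h, mul_one]
    · simp only [Pi.add_apply, Pi.zero_apply, zero_add, if_neg hi, Pi.single_eq_of_ne hi, zero_mul]
  rw [e1] at s1
  have s2 := reach_up k (Pi.single k 1) (hs _) (Pi.single k u) (Pi.single k (1 - u))
  have e2 : ((Pi.single k u : Fin n → R) + fun i => if i = k then
      (Pi.single k 1 : Fin n → R) ⬝ᵥ Pi.single k (1 - u)
      else (Pi.single k 1 : Fin n → R) i * (Pi.single k (1 - u) : Fin n → R) k) =
      Pi.single k 1 := by
    funext i
    by_cases hi : i = k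
    · subst hi
      simp only [Pi.add_apply, if_true, dot_single, Pi.single_eq_same]
      ring
    · simp only [Pi.add_apply, if_neg hi, Pi.single_eq_of_ne hi, zero_mul, add_zero]
  rw [e2] at s2
  have s3 := reach_lo k (Pi.single k (-(1 - u))) (hs _) (Pi.single k 1) (Pi.single k (1 - u))
  have e3 : ((Pi.single k (1 - u) : Fin n → R) + fun i => if i = k then
      (Pi.single k (-(1 - u)) : Fin n → R) ⬝ᵥ Pi.single k 1
      else (Pi.single k (-(1 - u)) : Fin n → R) i * (Pi.single k 1 : Fin n → R) k) = 0 := by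
    funext i
    by_cases hi : i = k
    · subst hi
      simp only [Pi.add_apply, if_true, dot_single, Pi.single_eq_same, Pi.zero_apply]
      ring
    · simp only [Pi.add_apply, if_neg hi, Pi.single_eq_of_ne hi, zero_mul, add_zero, Pi.zero_apply]
  rw [e3] at s3
  exact s1.trans (s2.trans s3)

/-- (2) and (3): a vector with `x_k` a unit -/
theorem reach_of_unit (k : Fin n) (x y : Fin n → R) (u' : R) (h : u' * x k = 1)
    (hx : ∀ i : Fin n, i.1 < k.1 → x i = 0) (hy : ∀ i : Fin n, i.1 < k.1 → y i = 0) :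
    Reach k (Sum.elim x y) (Sum.elim (Pi.single k 1) 0) := by
  have s1 := reach_B k (fun i => -(x i * u')) x y (Finset.Ioi k) (fun i hi => Finset.mem_Ioi.mp hi)
  have e1 : (x + fun i => if i ∈ Finset.Ioi k then (fun i => -(x i * u')) i * x k else 0) =
      Pi.single k (x k) := by
    funext i
    rcases lt_trichotomy i k with hi | hi | hi
    · simp only [Pi.add_apply]
      rw [if_neg (by simpa using hi.le), Pi.single_eq_of_ne hi.ne, hx i hi, add_zero]
    · subst hi
      simp only [Pi.add_apply]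
      rw [if_neg (by simp), Pi.single_eq_same, add_zero]
    · simp only [Pi.add_apply]
      rw [if_pos (by simpa using hi), Pi.single_eq_of_ne hi.ne', neg_mul, mul_assoc, h, mul_one,
        add_neg_cancel]
  rw [e1] at s1
  set y' : Fin n → R := y + Pi.single k (-(∑ i ∈ Finset.Ioi k, (fun i => -(x i * u')) i * y i))
    with hy'
  have hy'0 : ∀ i : Fin n, i.1 < k.1 → y' i = 0 := by
    intro i hi
    have hik : i ≠ k := fun h => by rw [h] at hi; exact lt_irrefl _ hi
    rw [hy', Pi.add_apply, hy i hi, Pi.single_eq_of_ne hik, add_zero]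
  have s2 := reach_lo k (fun i => -(y' i * u')) (fun i hi => by simp [hy'0 i hi])
    (Pi.single k (x k)) y'
  have e2 : (y' + fun i => if i = k then (fun i => -(y' i * u')) ⬝ᵥ (Pi.single k (x k) : Fin n → R)
      else (fun i => -(y' i * u')) i * (Pi.single k (x k) : Fin n → R) k) = 0 := by
    funext i
    by_cases hi : i = k
    · subst hi
      simp only [Pi.add_apply, if_true, dot_single, Pi.zero_apply]
      rw [neg_mul, mul_assoc, h, mul_one, add_neg_cancel]
    · simp only [Pi.add_apply, if_neg hi, Pi.single_eq_same, Pi.zero_apply]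
      rw [neg_mul, mul_assoc, h, mul_one, add_neg_cancel]
  rw [e2] at s2
  exact s1.trans (s2.trans (reach_unit k (x k) u' h))

theorem sA1 : SA1 := by
  intro R _ hR n k v c hv hc
  obtain ⟨x, hxdef⟩ : ∃ x : Fin n → R, x = fun i => v (Sum.inl i) := ⟨_, rfl⟩
  obtain ⟨y, hydef⟩ : ∃ y : Fin n → R, y = fun i => v (Sum.inr i) := ⟨_, rfl⟩
  obtain ⟨α, hα⟩ : ∃ α : Fin n → R, α = fun i => c (Sum.inl i) := ⟨_, rfl⟩
  obtain ⟨β, hβ⟩ : ∃ β : Fin n → R, β = fun i => c (Sum.inr i) := ⟨_, rfl⟩
  have hvE : v = Sum.elim x y := by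
    funext j; rcases j with j | j
    · rw [Sum.elim_inl, hxdef]
    · rw [Sum.elim_inr, hydef]
  have hx : ∀ i : Fin n, i.1 < k.1 → x i = 0 := fun i hi => by rw [hxdef]; exact (hv i hi).1
  have hy : ∀ i : Fin n, i.1 < k.1 → y i = 0 := fun i hi => by rw [hydef]; exact (hv i hi).2
  have hsum : ∑ i, α i * x i + ∑ i, β i * y i = 1 := by
    rw [← hc, dotProduct, Fintype.sum_sum_type, hα, hβ, hxdef, hydef]
  rw [sum_split k (fun i => α i * x i) (fun i hi => by simp [hx i hi]),
    sum_split k (fun i => β i * y i) (fun i hi => by simp [hy i hi])] at hsum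
  obtain ⟨t, ht⟩ := hR (x k) (∑ i ∈ Finset.Ioi k, α i * x i +
    (β k * y k + ∑ i ∈ Finset.Ioi k, β i * y i)) (α k) 1 (by
      rw [one_mul, ← add_assoc]; exact hsum)
  have s1 := reach_A k (fun i => t * α i) x y (Finset.Ioi k) (fun i hi => Finset.mem_Ioi.mp hi)
  obtain ⟨x1, hx1⟩ : ∃ x1 : Fin n → R, x1 = x + Pi.single k (∑ i ∈ Finset.Ioi k,
    (fun i => t * α i) i * x i) := ⟨_, rfl⟩
  obtain ⟨y1, hy1⟩ : ∃ y1 : Fin n → R, y1 = y + fun i => if i ∈ Finset.Ioi k then
    -((fun i => t * α i) i * y k) else 0 := ⟨_, rfl⟩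
  rw [← hx1, ← hy1] at s1
  have hx1k : x1 k = x k + ∑ i ∈ Finset.Ioi k, t * α i * x i := by
    rw [hx1, Pi.add_apply, Pi.single_eq_same]
  have hx10 : ∀ i : Fin n, i.1 < k.1 → x1 i = 0 := by
    intro i hi
    have hik : i ≠ k := fun h => by rw [h] at hi; exact lt_irrefl _ hi
    rw [hx1, Pi.add_apply, Pi.single_eq_of_ne hik, hx i hi, add_zero]
  have hy1k : y1 k = y k := by
    rw [hy1, Pi.add_apply, if_neg (by simp), add_zero]
  have hy10 : ∀ i : Fin n, i.1 < k.1 → y1 i = 0 := by
    intro i hi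
    have hik : i < k := hi
    rw [hy1, Pi.add_apply, if_neg (by simpa using hik.le), hy i hi, add_zero]
  have hy1i : ∀ i ∈ Finset.Ioi k, y1 i = y i - t * α i * y k := by
    intro i hi
    rw [hy1, Pi.add_apply, if_pos hi, sub_eq_add_neg]
  obtain ⟨w, hw⟩ : ∃ w : Fin n → R, w = fun i => if i = k then
    t * β k + ∑ i ∈ Finset.Ioi k, (t * β i) * (t * α i) else if k < i then t * β i else 0 :=
    ⟨_, rfl⟩
  have hw0 : ∀ i : Fin n, i.1 < k.1 → w i = 0 := by
    intro i hi
    have hik : i < k := hi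
    rw [hw]
    simp only
    rw [if_neg hik.ne, if_neg (not_lt.mpr hik.le)]
  have hwk : w k = t * β k + ∑ i ∈ Finset.Ioi k, (t * β i) * (t * α i) := by
    rw [hw]; exact if_pos rfl
  have hwi : ∀ i ∈ Finset.Ioi k, w i = t * β i := by
    intro i hi
    have hik := Finset.mem_Ioi.mp hi
    rw [hw]
    simp only
    rw [if_neg hik.ne', if_pos hik]
  have s2 := reach_up k w hw0 x1 y1
  obtain ⟨x2, hx2⟩ : ∃ x2 : Fin n → R, x2 = x1 + fun i => if i = k then w ⬝ᵥ y1 else w i * y1 k :=
    ⟨_, rfl⟩
  rw [← hx2] at s2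
  have hx20 : ∀ i : Fin n, i.1 < k.1 → x2 i = 0 := by
    intro i hi
    have hik : i < k := hi
    rw [hx2, Pi.add_apply, if_neg hik.ne, hw0 i hi, hx10 i hi, zero_mul, add_zero]
  have hx2k : x2 k = x k + t * (∑ i ∈ Finset.Ioi k, α i * x i +
      (β k * y k + ∑ i ∈ Finset.Ioi k, β i * y i)) := by
    rw [hx2, Pi.add_apply, if_pos rfl, hx1k, dotProduct,
      sum_split k (fun i => w i * y1 i) (fun i hi => by simp [hw0 i hi]), hwk, hy1k]
    have e : ∑ i ∈ Finset.Ioi k, w i * y1 i =
        t * ∑ i ∈ Finset.Ioi k, β i * y i -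
          (∑ i ∈ Finset.Ioi k, (t * β i) * (t * α i)) * y k := by
      rw [Finset.mul_sum, Finset.sum_mul, ← Finset.sum_sub_distrib]
      refine Finset.sum_congr rfl fun i hi => ?_
      rw [hwi i hi, hy1i i hi]; ring
    have e' : ∑ i ∈ Finset.Ioi k, t * α i * x i = t * ∑ i ∈ Finset.Ioi k, α i * x i := by
      rw [Finset.mul_sum]
      exact Finset.sum_congr rfl fun i _ => by ring
    rw [e, e']
    ring
  rw [← hx2k] at ht
  obtain ⟨u, hu⟩ := ht
  have hu1 : ((u⁻¹ : Rˣ) : R) * x2 k = 1 := by rw [← hu]; exact Units.inv_mul u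
  have s3 := reach_of_unit k x2 y1 _ hu1 hx20 hy10
  have fin := s1.trans (s2.trans s3)
  rw [← hvE, ← single_inl] at fin
  exact fin

end Pool.Agent.Q214.SPC
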